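import Pool.Agent.Helper57.ZF.Goals

/-!
Project ZF, packet TRANS: the bilinear bound after an affine change of variables.
-/

set_option autoImplicit false

namespace Pool.Agent.Helper94.ZF

open Pool.Agent.Helper57.ZF

theorem cnt_congr {α : Type} {s : Finset α} {q q' : α → Prop} (h : ∀ a ∈ s, (q a ↔ q' a)) :
    cnt s q = cnt s q' := by
  classical
  rw [cnt_eq, cnt_eq, Finset.filter_congr h]

theorem cnt_image {α β : Type} [DecidableEq β] (s : Finset α) (m : α → β)
    (hm : ∀ a ∈ s, ∀ b ∈ s, m a = m b → a = b) (q : β → Prop) :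
    cnt (s.image m) q = cnt s (fun a => q (m a)) := by
  classical
  rw [cnt_eq, cnt_eq, Finset.filter_image, Finset.card_image_of_injOn]
  intro a ha b hb hab
  exact hm a (Finset.mem_filter.1 ha).1 b (Finset.mem_filter.1 hb).1 hab

theorem lin_image {α β α' β' : Type} [DecidableEq α'] [DecidableEq β'] {P : Finset α} {F : Finset β} {R : α → β → Prop}
    {R' : α' → β' → Prop} (T : α → α') (m : β → β')
    (hm : ∀ a ∈ F, ∀ b ∈ F, m a = m b → a = b)
    (h : ∀ z ∈ P, ∀ f ∈ F, (R' (T z) (m f) ↔ R z f)) (hl : Lin P F R) :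
    Lin (P.image T) (F.image m) R' := by
  intro p hp q hq hpq
  obtain ⟨a, ha, rfl⟩ := Finset.mem_image.1 hp
  obtain ⟨b, hb, rfl⟩ := Finset.mem_image.1 hq
  have hab : a ≠ b := fun e => hpq (by rw [e])
  rw [cnt_image F m hm]
  rw [cnt_congr (q' := fun f => R a f ∧ R b f)]
  · exact hl a ha b hb hab
  · intro f hf
    rw [h a ha f hf, h b hb f hf]

theorem rich_image {α β α' β' : Type} [DecidableEq α'] [DecidableEq β'] {P : Finset α} {F : Finset β} {R : α → β → Prop}
    {R' : α' → β' → Prop} (T : α → α') (m : β → β')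
    (hm : ∀ a ∈ F, ∀ b ∈ F, m a = m b → a = b)
    (h : ∀ z ∈ P, ∀ f ∈ F, (R' (T z) (m f) ↔ R z f)) {k : ℕ} (hk : ∀ p ∈ P, k ≤ cnt F (R p)) :
    ∀ p ∈ P.image T, k ≤ cnt (F.image m) (R' p) := by
  intro p hp
  obtain ⟨a, ha, rfl⟩ := Finset.mem_image.1 hp
  rw [cnt_image F m hm, cnt_congr (q' := R a) (fun f hf => h a ha f hf)]
  exact hk a ha

theorem TRANS (hBL : G_BL) (hINV : G_INV) : G_TRANS := by
  classical
  intro E _ _ _
  obtain ⟨C, hC⟩ := hBL E
  refine ⟨C, fun P F₁ F₂ B r k hr h1 h2 hl1 hl2 hk1 hk2 => ?_⟩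
  set s : ℝ := (5 * r)⁻¹ with hs
  have hs0 : 0 < s := by rw [hs]; positivity
  have hs1 : s ≠ 0 := hs0.ne'
  have hsr : s * (5 * r) = 1 := by rw [hs]; field_simp
  set T : E × E → E × E := fun z => (z.1, s • (z.2 - B z.1)) with hT
  have hTinj : ∀ a ∈ P, ∀ b ∈ P, T a = T b → a = b := by
    intro a _ b _ hab
    have e1 : a.1 = b.1 := (Prod.mk.inj hab).1
    have e2 : s • (a.2 - B a.1) = s • (b.2 - B b.1) := (Prod.mk.inj hab).2
    have e3 : a.2 - B a.1 = b.2 - B b.1 := smul_right_injective E hs1 e2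
    rw [e1] at e3
    exact Prod.ext e1 (sub_left_injective e3)
  -- equivalence of incidences for the first family
  set m1 : (E →L[ℝ] E) × E → (E →L[ℝ] E) × E := fun f => (s • (f.1 - B), s • f.2) with hm1
  have hOn1 : ∀ (z : E × E) (f : (E →L[ℝ] E) × E), On (T z) (m1 f) ↔ On z f := by
    intro z f
    unfold On
    simp only [hT, hm1, _root_.smul_apply, _root_.sub_apply]
    rw [← smul_add]
    constructor
    · intro h
      have := smul_right_injective E hs1 h
      have h3 : z.2 = (z.2 - B z.1) + B z.1 := by abel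
      rw [h3, this]; abel
    · intro h
      rw [h]; congr 1; abel
  have hm1inj : ∀ a ∈ F₁, ∀ b ∈ F₁, m1 a = m1 b → a = b := by
    intro a _ b _ hab
    have e1 : s • (a.1 - B) = s • (b.1 - B) := (Prod.mk.inj hab).1
    have e2 : s • a.2 = s • b.2 := (Prod.mk.inj hab).2
    have e3 : a.1 - B = b.1 - B := smul_right_injective _ hs1 e1
    have e4 : a.2 = b.2 := smul_right_injective E hs1 e2
    exact Prod.ext (sub_left_injective e3) e4
  -- the second family
  have hex : ∀ f : (E →L[ℝ] E) × E, ∃ f' : (E →L[ℝ] E) × E, f ∈ F₂ →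
      (‖f'.1‖ ≤ 1 / 5 ∧ ∀ z : E × E, Ov (T z) f' ↔ On z f) := by
    intro f
    by_cases hf : f ∈ F₂
    · obtain ⟨A', hA1, hA2⟩ := hINV E (s • (f.1 - B)) (fun v => by
        have h3 := h2 f hf v
        rw [_root_.smul_apply, norm_smul, Real.norm_eq_abs, abs_of_pos hs0]
        have h4 := mul_le_mul_of_nonneg_left h3 hs0.le
        have h5 : s * (25 * r * ‖v‖) = 5 * ‖v‖ := by
          calc s * (25 * r * ‖v‖) = (s * (5 * r)) * (5 * ‖v‖) := by ring
            _ = _ := by rw [hsr, one_mul]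
        rw [h5] at h4
        exact h4)
      refine ⟨(A', -(A' (s • f.2))), fun _ => ⟨hA1, fun z => ?_⟩⟩
      have h6 := hA2 z.1 (s • (z.2 - B z.1) - s • f.2)
      rw [map_sub] at h6
      have h7 : Ov (T z) (A', -(A' (s • f.2))) ↔
          z.1 = A' (s • (z.2 - B z.1)) - A' (s • f.2) := by
        unfold Ov
        simp only [hT, sub_eq_add_neg]
      rw [h7, ← h6]
      unfold On
      simp only [_root_.smul_apply, _root_.sub_apply]
      rw [← smul_sub]
      constructor
      · intro h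
        have := smul_right_injective E hs1 h
        have h3 : z.2 = (z.2 - B z.1 - f.2) + (B z.1 + f.2) := by abel
        rw [h3, this]; abel
      · intro h
        rw [h]; congr 1; abel
    · exact ⟨f, fun h => absurd h hf⟩
  choose m2 hm2 using hex
  have hm2inj : ∀ a ∈ F₂, ∀ b ∈ F₂, m2 a = m2 b → a = b := by
    intro a ha b hb hab
    have h3 : ∀ z : E × E, On z a ↔ On z b := fun z => by
      rw [← (hm2 a ha).2 z, ← (hm2 b hb).2 z, hab]
    have h4 : ∀ x : E, a.1 x + a.2 = b.1 x + b.2 := fun x => by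
      have : On (x, a.1 x + a.2) a := rfl
      exact (h3 _).1 this
    have h5 : a.2 = b.2 := by
      have := h4 0
      simpa using this
    refine Prod.ext (ContinuousLinearMap.ext fun x => ?_) h5
    have := h4 x
    rw [h5] at this
    exact add_right_cancel this
  have key := hC (P.image T) (F₁.image m1) (F₂.image m2) k
    (by
      intro f hf
      obtain ⟨g, hg, rfl⟩ := Finset.mem_image.1 hf
      simp only [hm1]
      rw [norm_smul, Real.norm_eq_abs, abs_of_pos hs0]
      have h3 := mul_le_mul_of_nonneg_left (h1 g hg) hs0.le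
      have h4 : s * r = 1 / 5 := by linarith
      linarith)
    (by
      intro f hf
      obtain ⟨g, hg, rfl⟩ := Finset.mem_image.1 hf
      exact (hm2 g hg).1)
    (lin_image T m1 hm1inj (fun z _ f _ => hOn1 z f) hl1)
    (lin_image T m2 hm2inj (fun z _ f hf => (hm2 f hf).2 z) hl2)
    (rich_image T m1 hm1inj (fun z _ f _ => hOn1 z f) hk1)
    (rich_image T m2 hm2inj (fun z _ f hf => (hm2 f hf).2 z) hk2)
  rw [Finset.card_image_of_injOn (fun a ha b hb h => hTinj a ha b hb h),
    Finset.card_image_of_injOn (fun a ha b hb h => hm1inj a ha b hb h),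
    Finset.card_image_of_injOn (fun a ha b hb h => hm2inj a ha b hb h)] at key
  exact key

end Pool.Agent.Helper94.ZF
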